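import Mathlib

/-!
Counting lemmas and a closure lemma.
-/

set_option autoImplicit false

namespace Pool.Agent.H422Z.Sil

open Set Cardinal

theorem closed_small {I J : Type} (hJ : #J ≤ 𝔠) (hI : 𝔠 < #I) (i0 : I)
    (F : J → (ℕ → I) → I) :
    ∃ B : Set I, (∃ α, α ∉ B) ∧ i0 ∈ B ∧ ∀ j (e : ℕ → I), (∀ n, e n ∈ B) → F j e ∈ B := by
  classical
  let β : Option J → Type := fun a => {_n : ℕ // a.isSome = true}
  let ev : WType β → I := WType.elim I
    (fun x => if h : x.1.isSome = true then F (x.1.get h) (fun n => x.2 ⟨n, h⟩) else i0)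
  have hW : #(WType β) ≤ 𝔠 := by
    refine WType.cardinalMk_le_of_le ?_
    have h1 : ∀ a : Option J, (𝔠 : Cardinal.{0}) ^ #(β a) ≤ 𝔠 := by
      intro a
      have h2 : #(β a) ≤ ℵ₀ := Cardinal.mk_le_aleph0
      calc (𝔠 : Cardinal.{0}) ^ #(β a) ≤ 𝔠 ^ ℵ₀ :=
            Cardinal.power_le_power_left continuum_ne_zero h2
        _ = 𝔠 := continuum_power_aleph0
    refine (Cardinal.sum_le_sum _ (fun _ => 𝔠) h1).trans ?_
    rw [Cardinal.sum_const', Cardinal.mk_option]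
    have h3 : #J + 1 ≤ 𝔠 := Cardinal.add_le_of_le aleph0_le_continuum hJ
      (Cardinal.one_le_aleph0.trans aleph0_le_continuum)
    exact (mul_le_mul' h3 le_rfl).trans (by rw [continuum_mul_self])
  refine ⟨range ev, ?_, ⟨WType.mk none (fun x => absurd x.2 (by simp)), ?_⟩, fun j e he => ?_⟩
  · by_contra h
    push Not at h
    have := Cardinal.mk_le_of_surjective (f := ev) h
    exact absurd (this.trans hW) (not_le.2 hI)
  · simp [ev, WType.elim]
  · choose t ht using he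
    refine ⟨WType.mk (some j) (fun x => t x.1), ?_⟩
    have : e = fun n => ev (t n) := funext fun n => (ht n).symm
    rw [this]
    simp [ev, WType.elim]

/-- number of `i < j` with `p i` -/
noncomputable def ct (p : ℕ → Prop) (j : ℕ) : ℕ := @Nat.count p (Classical.decPred p) j

theorem ct_zero (p : ℕ → Prop) : ct p 0 = 0 := by simp [ct]

theorem ct_pos {p : ℕ → Prop} {j : ℕ} (h : p j) : ct p (j + 1) = ct p j + 1 := by
  simp [ct, Nat.count_succ, h]

theorem ct_neg {p : ℕ → Prop} {j : ℕ} (h : ¬ p j) : ct p (j + 1) = ct p j := by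
  simp [ct, Nat.count_succ, h]

theorem ct_mono (p : ℕ → Prop) : Monotone (ct p) := @Nat.count_monotone p (Classical.decPred p)

theorem ct_le (p : ℕ → Prop) (j : ℕ) : ct p j ≤ j := @Nat.count_le p (Classical.decPred p) j

theorem ct_nth {p : ℕ → Prop} (h : {n | p n}.Infinite) (n : ℕ) : ct p (Nat.nth p n) = n :=
  @Nat.count_nth_of_infinite p (Classical.decPred p) h n

theorem ct_congr {p q : ℕ → Prop} {j : ℕ} (h : ∀ i < j, p i ↔ q i) : ct p j = ct q j := by
  induction j with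
  | zero => rw [ct_zero, ct_zero]
  | succ j ih =>
    have h1 := ih (fun i hi => h i (by omega))
    by_cases hp : p j
    · rw [ct_pos hp, ct_pos ((h j (by omega)).1 hp), h1]
    · rw [ct_neg hp, ct_neg (mt (h j (by omega)).2 hp), h1]

theorem ct_comp (D O : ℕ → Prop) (j : ℕ) :
    ct (fun x => D x ∧ O (ct D x)) j = ct O (ct D j) := by
  induction j with
  | zero => rw [ct_zero, ct_zero, ct_zero]
  | succ j ih =>
    by_cases hD : D j
    · rw [ct_pos hD]
      by_cases hO : O (ct D j)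
      · rw [ct_pos (p := fun x => D x ∧ O (ct D x)) ⟨hD, hO⟩, ct_pos hO, ih]
      · rw [ct_neg (p := fun x => D x ∧ O (ct D x)) (fun h => hO h.2), ct_neg hO, ih]
    · rw [ct_neg hD, ct_neg (p := fun x => D x ∧ O (ct D x)) (fun h => hD h.1), ih]

theorem ct_add_pos {p : ℕ → Prop} (a t : ℕ) (h : ∀ i, a ≤ i → i < a + t → p i) :
    ct p (a + t) = ct p a + t := by
  induction t with
  | zero => rfl
  | succ t ih =>
    rw [← add_assoc, ct_pos (h _ (by omega) (by omega)), ih (fun i h1 h2 => h i h1 (by omega)),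
      add_assoc]

theorem ct_eq_of_neg {p : ℕ → Prop} {a b : ℕ} (hab : a ≤ b) (h : ∀ i, a ≤ i → i < b → ¬ p i) :
    ct p b = ct p a := by
  induction b, hab using Nat.le_induction with
  | base => rfl
  | succ b hab ih =>
    rw [ct_neg (h _ hab (by omega)), ih (fun i h1 h2 => h i h1 (by omega))]

theorem shift (S : Finset ℕ) (m k : ℕ) (hk : (S.card * (m + 1)) ^ 2 < k) :
    ∃ σ, ∀ c, ∀ w ≤ m, ∀ w' ≤ m, (c + w) % k ∈ S → (c + σ + w') % k ∉ S := by
  classical
  haveI : NeZero k := ⟨by omega⟩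
  let φ : (ℕ × ℕ) × ℕ × ℕ → ZMod k := fun x => (x.2.1 : ZMod k) - x.1.1 + x.1.2 - x.2.2
  let A := S ×ˢ Finset.range (m + 1)
  have hc : ((A ×ˢ A).image φ).card < (Finset.univ : Finset (ZMod k)).card := by
    rw [Finset.card_univ, ZMod.card]
    refine lt_of_le_of_lt Finset.card_image_le ?_
    simp only [A, Finset.card_product, Finset.card_range]
    rw [← sq]; exact hk
  obtain ⟨z, -, hz⟩ := Finset.exists_mem_notMem_of_card_lt_card hc
  refine ⟨z.val, fun c w hw w' hw' h1 h2 => hz (Finset.mem_image.2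
    ⟨(((c + w) % k, w), ((c + z.val + w') % k, w')), ?_, ?_⟩)⟩
  · simp only [A, Finset.mem_product, Finset.mem_range]
    exact ⟨⟨h1, by omega⟩, h2, by omega⟩
  · simp only [φ, ZMod.natCast_mod]
    push_cast
    rw [ZMod.natCast_zmod_val]
    ring

/-- target counts -/
def TT (k σ : ℕ → ℕ) : ℕ → ℕ
  | 0 => σ 1
  | 1 => σ 2
  | n + 2 => σ (n + 3) + k (n + 3) * TT k σ n

/-- increments -/
def tt (k σ : ℕ → ℕ) : ℕ → ℕ
  | 0 => σ 1
  | 1 => σ 2
  | n + 2 => TT k σ (n + 2) - TT k σ n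

/-- block ends -/
def bb (f t : ℕ → ℕ) : ℕ → ℕ
  | 0 => 0
  | n + 1 => bb f t n + t n + 1 + f (n + 1)

theorem comb_index (f k σ : ℕ → ℕ) (hk : ∀ n, 1 ≤ k n) :
    ∃ (W : ℕ → Prop) (O : Bool → ℕ → Prop) (m0 : ℕ), {i | W i}.Infinite ∧
      (∀ ε i, O ε i → ¬ W i) ∧ ∀ i, m0 ≤ i → ∃ n ε, f n ≤ i ∧ ct W i ≤ n + 1 ∧
        ct (O ε) i ≡ σ n [MOD k n] := by
  set t := tt k σ
  set b := bb f t
  have hb : ∀ n, b (n + 1) = b n + t n + 1 + f (n + 1) := fun n => rfl
  have hsm : StrictMono b := strictMono_nat_of_lt_succ (fun n => by rw [hb]; omega)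
  let W : ℕ → Prop := fun i => ∃ n, b n = i
  let O : Bool → ℕ → Prop := fun ε i => ∃ n, n.bodd = ε ∧ b n < i ∧ i ≤ b n + t n
  have hloc : ∀ n m i, b n ≤ i → i < b (n + 1) → b m ≤ i → i < b (m + 1) → n = m := by
    intro n m i h1 h2 h3 h4
    have h5 : n < m + 1 := hsm.lt_iff_lt.1 (by omega)
    have h6 : m < n + 1 := hsm.lt_iff_lt.1 (by omega)
    omega
  have hO : ∀ ε n i, b n ≤ i → i < b (n + 1) →
      (O ε i ↔ n.bodd = ε ∧ b n < i ∧ i ≤ b n + t n) := by
    intro ε n i h1 h2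
    refine ⟨fun ⟨m, h3, h4, h5⟩ => ?_, fun h => ⟨n, h⟩⟩
    have := hloc n m i h1 h2 h4.le (by rw [hb]; omega)
    subst this
    exact ⟨h3, h4, h5⟩
  have hW : ∀ n, ct W (b n) = n := by
    intro n
    induction n with
    | zero => exact ct_zero _
    | succ n ih =>
      rw [ct_eq_of_neg (a := b n + 1) (hsm (Nat.lt_succ_self n)), ct_pos ⟨n, rfl⟩, ih]
      rintro i h1 h2 ⟨m, rfl⟩
      have h5 : n < m := hsm.lt_iff_lt.1 (by omega)
      have h6 : m < n + 1 := hsm.lt_iff_lt.1 h2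
      omega
  have hO1 : ∀ n ε, n.bodd ≠ ε → ∀ i, b n ≤ i → i ≤ b (n + 1) → ct (O ε) i = ct (O ε) (b n) := by
    intro n ε hε i h1 h2
    exact ct_eq_of_neg h1 (fun j h3 h4 h5 => hε ((hO ε n j h3 (by omega)).1 h5).1)
  have hO2 : ∀ n, ct (O n.bodd) (b (n + 1)) = ct (O n.bodd) (b n) + t n := by
    intro n
    have h0 := hb n
    rw [ct_eq_of_neg (a := b n + 1 + t n) (by omega), ct_add_pos, ct_neg]
    · intro h
      have := ((hO _ n _ le_rfl (by omega)).1 h).2.1
      omega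
    · intro i h1 h2
      exact ⟨n, rfl, by omega, by omega⟩
    · intro i h1 h2 h
      have := ((hO _ n _ (by omega) h2).1 h).2.2
      omega
  have hT : ∀ n, ct (O n.bodd) (b (n + 1)) = TT k σ n := by
    intro n
    induction n using Nat.twoStepInduction with
    | zero => rw [hO2, show b 0 = 0 from rfl, ct_zero, zero_add]; rfl
    | one =>
      rw [hO2, hO1 0 _ (by simp) _ (hsm.monotone (by omega)) le_rfl, show b 0 = 0 from rfl,
        ct_zero, zero_add]; rfl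
    | more n ih _ =>
      have h1 : (n + 2).bodd = n.bodd := by simp
      rw [hO2, h1, hO1 (n + 1) _ (by simp) _ (hsm.monotone (by omega)) le_rfl, ih]
      have h2 : TT k σ n ≤ TT k σ (n + 2) := by
        have := Nat.le_mul_of_pos_left (TT k σ n) (hk (n + 3))
        simp only [TT]; omega
      show _ + (TT k σ (n + 2) - TT k σ n) = _
      omega
  have hT2 : ∀ n, TT k σ n ≡ σ (n + 1) [MOD k (n + 1)] := by
    intro n
    rcases n with _ | _ | n
    · rfl
    · rfl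
    · simp only [TT, Nat.ModEq]
      exact Nat.add_mul_mod_self_left _ _ _
  refine ⟨W, O, b 1, infinite_range_of_injective hsm.injective, ?_, fun i hi => ?_⟩
  · rintro ε i ⟨n, -, h1, h2⟩ ⟨m, rfl⟩
    have h5 : n < m := hsm.lt_iff_lt.1 h1
    have h6 : m < n + 1 := hsm.lt_iff_lt.1 (by rw [hb]; omega)
    omega
  · classical
    have hex : ∃ n, i < b (n + 1) := ⟨i, (Nat.lt_succ_self i).trans_le (hsm.id_le _)⟩
    have h1 := Nat.find_spec hex
    obtain ⟨n, hn⟩ : ∃ n, Nat.find hex = n + 1 := by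
      refine Nat.exists_eq_succ_of_ne_zero (fun h => ?_)
      rw [h, zero_add] at h1; omega
    have h2 : b (n + 1) ≤ i := not_lt.1 (Nat.find_min hex (by omega : n < Nat.find hex))
    rw [hn] at h1
    refine ⟨n + 1, n.bodd, by rw [hb] at h2; omega, ?_, ?_⟩
    · rw [← hW (n + 1 + 1)]; exact ct_mono _ h1.le
    · rw [hO1 (n + 1) _ (by simp) i h2 h1.le, hT]
      exact hT2 n

theorem comb (D : ℕ → Prop) (hD : {i | D i}.Infinite) (f k σ : ℕ → ℕ) (hk : ∀ n, 1 ≤ k n) :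
    ∃ (W : ℕ → Prop) (O : Bool → ℕ → Prop) (m0 : ℕ), {i | D i ∧ W i}.Infinite ∧
      (∀ i, W i → D i) ∧
      (∀ ε i, O ε i → D i ∧ ¬ W i) ∧ ∀ j, m0 ≤ j → ∃ n ε, f n ≤ j ∧ ct W j ≤ n + 1 ∧
        ct (O ε) j ≡ σ n [MOD k n] := by
  obtain ⟨W, O, m0, h1, h2, h3⟩ := comb_index f k σ hk
  refine ⟨fun x => D x ∧ W (ct D x), fun ε x => D x ∧ O ε (ct D x), Nat.nth D m0, ?_,
    fun _ h => h.1, fun ε i h => ⟨h.1, fun h' => h2 _ _ h.2 h'.2⟩, fun j hj => ?_⟩
  · refine (h1.image (Nat.nth_injective hD).injOn).mono ?_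
    rintro _ ⟨i, hi, rfl⟩
    refine ⟨Nat.nth_mem_of_infinite hD i, Nat.nth_mem_of_infinite hD i, ?_⟩
    rw [ct_nth hD]; exact hi
  · have h4 : m0 ≤ ct D j := by rw [← ct_nth hD m0]; exact ct_mono D hj
    obtain ⟨n, ε, h5, h6, h7⟩ := h3 _ h4
    exact ⟨n, ε, h5.trans (ct_le _ _), by rw [ct_comp]; exact h6, by rw [ct_comp]; exact h7⟩

end Pool.Agent.H422Z.Sil
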