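import Pool.Agent.H422Z.Sil.Defs

/-!
The countable support product of Silver forcings and its Sacks property.
-/

set_option autoImplicit false

namespace Pool.Agent.H422Z.Sil

open Set

section Lang
universe v
variable {P : Type} [Preorder P]

theorem mem_fex {ι : Sort v} {φ : ι → Set P} {p : P} :
    p ∈ fex φ ↔ ∀ q ≤ p, ∃ r ≤ q, ∃ i, r ∈ φ i := by
  simp only [fex, fnot, fall, Set.mem_ofPred_eq, not_forall, not_not]
  constructor
  · intro h q hq
    obtain ⟨i, r, hr, h'⟩ := h q hq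
    exact ⟨r, hr, i, h'⟩
  · intro h q hq
    obtain ⟨r, hr, i, h'⟩ := h q hq
    exact ⟨i, r, hr, h'⟩

theorem mem_fimp {φ ψ : Set P} {p : P} :
    p ∈ fimp φ ψ ↔ ∀ q ≤ p, q ∈ φ → ∃ r ≤ q, r ∈ ψ := by
  simp only [fimp, fnot, fand, Set.mem_ofPred_eq, not_and, not_forall, not_not]
  constructor
  · intro h q hq h'
    obtain ⟨r, hr, h''⟩ := h q hq h'
    exact ⟨r, hr, h''⟩
  · intro h q hq h'
    obtain ⟨r, hr, h''⟩ := h q hq h'
    exact ⟨r, hr, h''⟩

/-- closed downwards -/
def Down (φ : Set P) : Prop := ∀ p ∈ φ, ∀ q ≤ p, q ∈ φ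

theorem down_fnot (φ : Set P) : Down (fnot φ) :=
  fun _ hp _ hq r hr => hp r (hr.trans hq)

theorem down_fand {φ ψ : Set P} (h : Down φ) (h' : Down ψ) : Down (fand φ ψ) :=
  fun _ hp _ hq => ⟨h _ hp.1 _ hq, h' _ hp.2 _ hq⟩

theorem down_fall {ι : Sort v} {φ : ι → Set P} (h : ∀ i, Down (φ i)) : Down (fall φ) :=
  fun _ hp _ hq i => h i _ (hp i) _ hq

theorem down_fex {ι : Sort v} (φ : ι → Set P) : Down (fex φ) := down_fnot _

theorem down_fimp (φ ψ : Set P) : Down (fimp φ ψ) := down_fnot _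

theorem down_meets (N : Set P) : Down (meets N) :=
  fun _ hp _ hq r hr => hp r (hr.trans hq)

theorem down_isFun {X Y : Type} (R : X → Y → Set P) : Down (IsFun R) :=
  down_fand (down_fall fun _ => down_fex _)
    (down_fall fun _ => down_fall fun _ => down_fall fun _ => down_fimp _ _)

theorem fex_of_dense {ι : Sort v} {φ : ι → Set P} {p : P}
    (h : ∀ q ≤ p, ∃ r ≤ q, r ∈ fex φ) : p ∈ fex φ := by
  rw [mem_fex]
  intro q hq
  obtain ⟨r, hr, h1⟩ := h q hq
  obtain ⟨s, hs, h2⟩ := mem_fex.1 h1 r le_rfl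
  exact ⟨s, hs.trans hr, h2⟩

theorem meets_of_mem {N : Set P} {p : P} (h : p ∈ N) : p ∈ meets N :=
  fun q hq => ⟨q, le_rfl, p, h, hq⟩

theorem exists_of_meets {N : Set P} (hN : Down N) {p : P} (h : p ∈ meets N) :
    ∃ q ≤ p, q ∈ N := by
  obtain ⟨r, hr, s, hs, hrs⟩ := h p le_rfl
  exact ⟨r, hr, hN s hs r hrs⟩

end Lang

/-- Conditions: partial functions on `I × ℕ` with countably many rows used, every row having
infinitely many free places. -/
structure Cond (I : Type) where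
  f : I × ℕ → Option Bool
  cnt : {α | ∃ n, f (α, n) ≠ none}.Countable
  inf : ∀ α, {n | f (α, n) = none}.Infinite

variable {I : Type}

instance : Preorder (Cond I) where
  le q p := ∀ x, p.f x ≠ none → q.f x = p.f x
  le_refl _ _ _ := rfl
  le_trans r q p h1 h2 x hx := by
    have := h2 x hx
    rw [h1 x (by rw [this]; exact hx), this]

theorem le_def {q p : Cond I} : q ≤ p ↔ ∀ x, p.f x ≠ none → q.f x = p.f x := Iff.rfl

theorem none_of_le {q p : Cond I} (h : q ≤ p) {x : I × ℕ} (hx : q.f x = none) : p.f x = none := by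
  by_contra hn
  exact hn (by rw [← h x hn, hx])

theorem some_of_le {q p : Cond I} (h : q ≤ p) {x : I × ℕ} {b : Bool} (hx : p.f x = some b) :
    q.f x = some b := by
  rw [h x (by simp [hx]), hx]

/-- the trivial condition -/
def top (I : Type) : Cond I := ⟨fun _ => none, by simp, fun _ => by simpa using infinite_univ⟩

open Classical in
/-- change a condition on a finite set -/
noncomputable def upd (p : Cond I) (K : Finset (I × ℕ)) (g : I × ℕ → Option Bool) : Cond I where
  f x := if x ∈ K then g x else p.f x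
  cnt := by
    refine (p.cnt.union (K.image Prod.fst).countable_toSet).mono ?_
    rintro α ⟨n, hn⟩
    by_cases h : (α, n) ∈ K
    · exact Or.inr (Finset.mem_coe.2 (Finset.mem_image.2 ⟨_, h, rfl⟩))
    · rw [if_neg h] at hn
      exact Or.inl ⟨n, hn⟩
  inf α := by
    refine ((p.inf α).diff (K.image Prod.snd).finite_toSet).mono ?_
    rintro n ⟨h1, h2⟩
    have : (α, n) ∉ K := fun h => h2 (Finset.mem_coe.2 (Finset.mem_image.2 ⟨_, h, rfl⟩))
    simp only [mem_ofPred_eq, if_neg this]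
    exact h1

theorem upd_in (p : Cond I) {K : Finset (I × ℕ)} (g : I × ℕ → Option Bool) {x : I × ℕ}
    (hx : x ∈ K) : (upd p K g).f x = g x := if_pos hx

theorem upd_out (p : Cond I) {K : Finset (I × ℕ)} (g : I × ℕ → Option Bool) {x : I × ℕ}
    (hx : x ∉ K) : (upd p K g).f x = p.f x := if_neg hx

open Classical in
/-- fill the places of `K`, with `true` exactly on `T` -/
noncomputable def fill (p : Cond I) (K T : Finset (I × ℕ)) : Cond I :=
  upd p K (fun x => some (decide (x ∈ T)))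

theorem fill_mono {q p : Cond I} (h : q ≤ p) (K T : Finset (I × ℕ)) :
    fill q K T ≤ fill p K T := by
  intro x hx
  by_cases hK : x ∈ K
  · rw [fill, fill, upd_in _ _ hK, upd_in _ _ hK]
  · rw [fill, upd_out _ _ hK] at hx
    rw [fill, fill, upd_out _ _ hK, upd_out _ _ hK]
    exact h x hx

theorem fill_le {p : Cond I} {K : Finset (I × ℕ)} (hK : ∀ x ∈ K, p.f x = none)
    (T : Finset (I × ℕ)) : fill p K T ≤ p := by
  intro x hx
  rw [fill, upd_out _ _ (fun h => hx (hK x h))]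

theorem exists_fill (r : Cond I) (K : Finset (I × ℕ)) : ∃ T ⊆ K, fill r K T ≤ r := by
  classical
  refine ⟨K.filter (fun x => r.f x = some true), Finset.filter_subset _ _, fun x hx => ?_⟩
  by_cases hK : x ∈ K
  · rw [fill, upd_in _ _ hK]
    obtain ⟨b, hb⟩ := Option.ne_none_iff_exists'.1 hx
    cases b <;> simp [hK, hb]
  · rw [fill, upd_out _ _ hK]

theorem amalg {p : Cond I} {K : Finset (I × ℕ)} (hK : ∀ x ∈ K, p.f x = none)
    {D : Set (Cond I)} (hD : Down D) (hd : ∀ q ≤ p, ∃ r ≤ q, r ∈ D)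
    (𝒯 : Finset (Finset (I × ℕ))) :
    ∃ q ≤ p, (∀ x ∈ K, q.f x = none) ∧ ∀ T ∈ 𝒯, fill q K T ∈ D := by
  classical
  induction 𝒯 using Finset.induction_on with
  | empty => exact ⟨p, le_rfl, hK, by simp⟩
  | insert T 𝒯 _ ih =>
    obtain ⟨q, hq, hqK, hqT⟩ := ih
    obtain ⟨r, hr, hrD⟩ := hd (fill q K T) ((fill_le hqK T).trans hq)
    have h1 : upd r K (fun _ => none) ≤ q := by
      intro x hx
      have hxK : x ∉ K := fun h => hx (hqK x h)
      rw [upd_out _ _ hxK]
      exact (hr.trans (fill_le hqK T)) x hx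
    refine ⟨upd r K (fun _ => none), h1.trans hq, fun x hx => upd_in _ _ hx, fun T' hT' => ?_⟩
    rcases Finset.mem_insert.1 hT' with rfl | hT'
    · refine hD r hrD _ (fun x hx => ?_)
      by_cases hxK : x ∈ K
      · rw [hr x (by rw [fill, upd_in _ _ hxK]; simp), fill, fill, upd_in _ _ hxK,
          upd_in _ _ hxK]
      · rw [fill, upd_out _ _ hxK, upd_out _ _ hxK]
    · exact hD _ (hqT T' hT') _ (fill_mono h1 K T')

theorem exists_enum [Nonempty I] (p : Cond I) :
    ∃ e : ℕ → I, ∀ α n, p.f (α, n) ≠ none → ∃ i, e i = α := by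
  obtain ⟨e, he⟩ := Set.countable_iff_exists_subset_range.1 p.cnt
  exact ⟨e, fun α n h => he ⟨n, h⟩⟩

/-- recursion with access to an earlier stage -/
noncomputable def hrec {S : Type} (s0 : S) (F : ℕ → S → S → S) : ℕ → S
  | 0 => s0
  | n + 1 => F n (hrec s0 F n) (hrec s0 F n.unpair.1)
decreasing_by
  · omega
  · exact Nat.lt_succ_of_le (Nat.unpair_left_le n)

theorem sacks [Nonempty I] {X : Type} (R : ℕ → X → Set (Cond I)) (hR : ∀ n x, Down (R n x))
    (p : Cond I) (hd : ∀ n, ∀ q ≤ p, ∃ r ≤ q, ∃ x, r ∈ R n x) :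
    ∃ q ≤ p, ∃ S : ℕ → Finset X, (∀ n, (S n).card ≤ 2 ^ n) ∧
      ∀ n, ∀ r ≤ q, ∃ r' ≤ r, ∃ x ∈ S n, r' ∈ R n x := by
  classical
  choose e he using fun q : Cond I => exists_enum q
  let St := {s : Cond I × Finset (I × ℕ) // s.1 ≤ p ∧ ∀ x ∈ s.2, s.1.f x = none}
  have step : ∀ (n : ℕ) (s : St) (α : I), ∃ t : St, t.1.1 ≤ s.1.1 ∧
      (∃ m, n ≤ m ∧ t.1.2 = insert (α, m) s.1.2) ∧
      ∀ T ⊆ s.1.2, ∃ x, fill t.1.1 s.1.2 T ∈ R n x := by
    rintro n ⟨⟨q, K⟩, hq, hK⟩ α
    obtain ⟨q', h1, h2, h3⟩ := amalg (D := {r | ∃ x, r ∈ R n x}) hK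
      (fun r ⟨x, hx⟩ r' hr' => ⟨x, hR n x r hx r' hr'⟩)
      (fun r hr => hd n r (hr.trans hq)) K.powerset
    obtain ⟨m, hm, hnm⟩ := (q'.inf α).exists_gt n
    refine ⟨⟨(q', insert (α, m) K), h1.trans hq, fun x hx => ?_⟩, h1, ⟨m, hnm.le, rfl⟩,
      fun T hT => h3 T (Finset.mem_powerset.2 hT)⟩
    rcases Finset.mem_insert.1 hx with rfl | hx
    · exact hm
    · exact h2 x hx
  choose F hF1 hF2 hF3 using step
  let s : ℕ → St := hrec ⟨(p, ∅), le_rfl, by simp⟩
    (fun n a b => F n a (e b.1.1 n.unpair.2.unpair.1))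
  have hs : ∀ n, s (n + 1) = F n (s n) (e (s n.unpair.1).1.1 n.unpair.2.unpair.1) := fun n => by
    simp only [s]; rw [hrec]
  have hs0 : (s 0).1.2 = ∅ := by simp only [s]; rw [hrec]
  have hanti : Antitone (fun n => (s n).1.1) :=
    antitone_nat_of_succ_le (fun n => by rw [hs]; exact hF1 _ _ _)
  have hmono : Monotone (fun n => (s n).1.2) := monotone_nat_of_le_succ (fun n => by
    obtain ⟨m, -, hm⟩ := hF2 n (s n) (e (s n.unpair.1).1.1 n.unpair.2.unpair.1)
    rw [hs, hm]; exact Finset.subset_insert _ _)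
  have hcard : ∀ n, (s n).1.2.card ≤ n := by
    intro n
    induction n with
    | zero => simp [hs0]
    | succ n ih =>
      obtain ⟨m, -, hm⟩ := hF2 n (s n) (e (s n.unpair.1).1.1 n.unpair.2.unpair.1)
      rw [hs, hm]
      exact (Finset.card_insert_le _ _).trans (by omega)
  have hprot : ∀ n, ∀ x ∈ (s n).1.2, ∀ m, (s m).1.1.f x = none := by
    intro n x hx m
    have h1 := (s (max n m)).2.2 x (hmono (le_max_left n m) hx)
    exact none_of_le (hanti (le_max_right n m)) h1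
  let g : I × ℕ → Option Bool := fun x =>
    if h : ∃ n, (s n).1.1.f x ≠ none then (s h.choose).1.1.f x else none
  have hg1 : ∀ x, g x = none ↔ ∀ n, (s n).1.1.f x = none := by
    intro x
    simp only [g]
    split_ifs with h
    · exact ⟨fun h' => absurd h' h.choose_spec, fun h' => h' _⟩
    · push Not at h
      exact ⟨fun _ => h, fun _ => rfl⟩
  let q : Cond I := ⟨g, by
      refine (countable_iUnion (fun n => (s n).1.1.cnt)).mono ?_
      rintro α ⟨n, hn⟩
      have := mt (hg1 _).2 hn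
      push Not at this
      obtain ⟨k, hk⟩ := this
      exact mem_iUnion.2 ⟨k, n, hk⟩, by
      intro α
      by_cases hα : ∃ a n, (s a).1.1.f (α, n) ≠ none
      · obtain ⟨a, n, h⟩ := hα
        obtain ⟨b, hb⟩ := he _ α n h
        refine infinite_of_forall_exists_gt (fun c => ?_)
        set k := Nat.pair a (Nat.pair b (c + 1)) with hk
        obtain ⟨m, hm1, hm2⟩ := hF2 k (s k) (e (s k.unpair.1).1.1 k.unpair.2.unpair.1)
        refine ⟨m, (hg1 _).2 (hprot (k + 1) _ ?_), ?_⟩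
        · rw [hs, hm2]
          simp [hk, hb]
        · have := (Nat.right_le_pair b (c + 1)).trans (Nat.right_le_pair a _)
          omega
      · push Not at hα
        have : {n | g (α, n) = none} = univ := eq_univ_of_forall (fun n =>
          (hg1 _).2 (fun a => hα a n))
        rw [this]; exact infinite_univ⟩
  have hq : ∀ n, q ≤ (s n).1.1 := by
    intro n x hx
    have h : ∃ n, (s n).1.1.f x ≠ none := ⟨n, hx⟩
    have h1 : q.f x = (s h.choose).1.1.f x := dif_pos h
    rw [h1]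
    rcases le_total n h.choose with h2 | h2
    · exact hanti h2 x hx
    · exact (hanti h2 x h.choose_spec).symm
  have hch : ∀ n T, ∃ x : Option X, T ⊆ (s n).1.2 →
      ∃ y, x = some y ∧ fill (s (n + 1)).1.1 (s n).1.2 T ∈ R n y := by
    intro n T
    by_cases hT : T ⊆ (s n).1.2
    · obtain ⟨y, hy⟩ := hF3 n (s n) (e (s n.unpair.1).1.1 n.unpair.2.unpair.1) T hT
      exact ⟨some y, fun _ => ⟨y, rfl, by rw [hs]; exact hy⟩⟩
    · exact ⟨none, fun h => absurd h hT⟩
  choose c hc using hch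
  refine ⟨q, (hq 0).trans (s 0).2.1,
    fun n => Finset.eraseNone (((s n).1.2.powerset).image (c n)), fun n => ?_, fun n r hr => ?_⟩
  · refine (Finset.card_eraseNone_le _).trans (Finset.card_image_le.trans ?_)
    rw [Finset.card_powerset]
    exact Nat.pow_le_pow_right (by norm_num) (hcard n)
  · obtain ⟨T, hT, hle⟩ := exists_fill r (s n).1.2
    obtain ⟨y, hy1, hy2⟩ := hc n T hT
    refine ⟨_, hle, y, ?_, hR n y _ hy2 _ (fill_mono (hr.trans (hq (n + 1))) _ _)⟩
    rw [Finset.mem_eraseNone]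
    exact Finset.mem_image.2 ⟨T, Finset.mem_powerset.2 hT, hy1⟩

end Pool.Agent.H422Z.Sil
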