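import Mathlib

/-!
A sentence of the forcing language of a preordered set `P` of conditions is represented by the
set of the conditions which force it. A name for a subset of a ground model set `X` is a map
`X → Set P`; the point `x` is in the named set iff the generic filter meets the image of `x`.
A name for a family of subsets of `ℕ` is a map from the names for subsets of `ℕ` to `Set P`.
-/

set_option autoImplicit false

namespace Pool.Agent.H422Z.Sil

universe v w

variable {P : Type} [Preorder P]

/-- `p` forces `not φ` iff no `q ≤ p` forces `φ`. -/
def fnot (φ : Set P) : Set P := {p | ∀ q ≤ p, q ∉ φ}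

/-- `p` forces `φ and ψ` iff it forces both. -/
def fand (φ ψ : Set P) : Set P := {p | p ∈ φ ∧ p ∈ ψ}

/-- `p` forces `for all i, φ i` iff it forces every `φ i`. -/
def fall {ι : Sort v} (φ : ι → Set P) : Set P := {p | ∀ i, p ∈ φ i}

/-- `φ implies ψ` is `not (φ and not ψ)`. -/
def fimp (φ ψ : Set P) : Set P := fnot (fand φ (fnot ψ))

/-- `φ if and only if ψ`. -/
def fiff (φ ψ : Set P) : Set P := fand (fimp φ ψ) (fimp ψ φ)

/-- `there is i with φ i` is `not for all i, not φ i`. -/
def fex {ι : Sort v} (φ : ι → Set P) : Set P := fnot (fall fun i => fnot (φ i))

/-- An absolute statement about ground model objects. -/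
def fground (h : Prop) : Set P := {_p | h}

/-- `p` forces that the generic filter meets the set `N` of conditions. -/
def meets (N : Set P) : Set P := {p | ∀ q ≤ p, ∃ r ≤ q, ∃ s ∈ N, r ≤ s}

/-- The relation named by `R` is a function from `X` to `Y`. -/
def IsFun {X : Type v} {Y : Type w} (R : X → Y → Set P) : Set P :=
  fand (fall fun x => fex fun y => meets (R x y))
    (fall fun x => fall fun y => fall fun y' =>
      fimp (fand (meets (R x y)) (meets (R x y'))) (fground (y = y')))

/-- The relation named by `R` is onto `Y`. -/
def IsOnto {X : Type v} {Y : Type w} (R : X → Y → Set P) : Set P :=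
  fall fun y => fex fun x => meets (R x y)

/-- The well-ordered set of the countable ordinals (order type `ω₁`). -/
abbrev Om : Type := (Cardinal.aleph 1 : Cardinal.{0}).ord.ToType

/-- No function of the extension maps `ℕ` onto the ground model `ω₁`. -/
def OmegaOnePreserved (P : Type) [Preorder P] : Set P :=
  fnot (fex fun R : ℕ → Om → Set P => fand (IsFun R) (IsOnto R))

/-- Some family of functions `ℕ → ℕ` indexed by `ω₁` eventually dominates every function. -/
def DomHolds (P : Type) [Preorder P] : Set P :=
  fex fun g : Om → ℕ → ℕ → Set P => fand (fall fun ξ => IsFun (g ξ))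
    (fall fun f : ℕ → ℕ → Set P => fimp (IsFun f)
      (fex fun ξ => fex fun m : ℕ => fall fun n => fall fun a => fall fun b =>
        fimp (fand (fground (m ≤ n)) (fand (meets (f n a)) (meets (g ξ n b))))
          (fground (a ≤ b))))

/-- The set named by `y` belongs to the family named by `U`. -/
def Mem (U : (ℕ → Set P) → Set P) (y : ℕ → Set P) : Set P :=
  fex fun x => fand (meets (U x)) (fall fun n => fiff (meets (x n)) (meets (y n)))

/-- The family named by `U` is a nonprincipal ultrafilter on `ℕ`: its members are infinite, a set
containing the intersection of two members is a member, and if `x ∪ y = ℕ` then `x` or `y` is a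
member. -/
def IsUltra (U : (ℕ → Set P) → Set P) : Set P :=
  fand
    (fall fun y => fimp (Mem U y)
      (fall fun m : ℕ => fex fun n => fand (fground (m ≤ n)) (meets (y n))))
    (fand
      (fall fun x => fall fun y => fall fun z =>
        fimp (fand (Mem U x) (fand (Mem U y)
          (fall fun n => fimp (fand (meets (x n)) (meets (y n))) (meets (z n))))) (Mem U z))
      (fall fun x => fall fun y =>
        fimp (fall fun n => fimp (fnot (meets (x n))) (meets (y n)))
          (fimp (fnot (Mem U x)) (Mem U y))))

/-- Every sequence of members of the family named by `U` has a pseudo-intersection in it. -/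
def PseudoInt (U : (ℕ → Set P) → Set P) : Set P :=
  fall fun A : ℕ → ℕ → Set P => fimp (fall fun k => Mem U (A k))
    (fex fun B => fand (Mem U B) (fall fun k => fex fun m : ℕ => fall fun n =>
      fimp (fand (fground (m ≤ n)) (meets (B n))) (meets (A k n))))

/-- There are no P-points in the extension. -/
def NoPPoints (P : Type) [Preorder P] : Set P :=
  fall fun U : (ℕ → Set P) → Set P => fimp (IsUltra U) (fnot (PseudoInt U))

end Pool.Agent.H422Z.Sil
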