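import Pool.Agent.H422Z.Sil.Cond

/-!
The product of Silver forcings preserves `ω₁` and adds a dominating family of size `ℵ₁`.
-/

set_option autoImplicit false

namespace Pool.Agent.H422Z.Sil

open Set

variable {I : Type}

theorem isFun_total {P : Type} [Preorder P] {X Y : Type} {R : X → Y → Set P} {p : P}
    (h : p ∈ IsFun R) (x : X) : ∀ q ≤ p, ∃ r ≤ q, ∃ y, r ∈ meets (R x y) :=
  mem_fex.1 (h.1 x)

theorem isFun_unique {P : Type} [Preorder P] {X Y : Type} {R : X → Y → Set P} {p q : P}
    (h : p ∈ IsFun R) (hq : q ≤ p) {x : X} {y y' : Y} (h1 : q ∈ meets (R x y))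
    (h2 : q ∈ meets (R x y')) : y = y' := by
  obtain ⟨_, -, h3⟩ := mem_fimp.1 (h.2 x y y') q hq ⟨h1, h2⟩
  exact h3

theorem om_uncountable : ¬ (univ : Set Om).Countable := by
  rw [← Cardinal.le_aleph0_iff_set_countable, Cardinal.mk_univ, Cardinal.mk_ord_toType, not_le]
  exact Cardinal.aleph0_lt_aleph_one

theorem exists_notMem_om {A : Set Om} (hA : A.Countable) : ∃ ξ, ξ ∉ A := by
  by_contra h
  push Not at h
  exact om_uncountable (hA.mono fun ξ _ => h ξ)

theorem omega_preserved [Nonempty I] (p : Cond I) : p ∈ OmegaOnePreserved (Cond I) := by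
  intro q _ hq
  obtain ⟨r, -, R, hF, hO⟩ := mem_fex.1 hq q le_rfl
  obtain ⟨s, hs, S, -, hS⟩ := sacks (fun n x => meets (R n x)) (fun _ _ => down_meets _) r
    (fun n => isFun_total hF n)
  obtain ⟨y, hy⟩ := exists_notMem_om (countable_iUnion fun n => (S n).countable_toSet)
  obtain ⟨s', hs', x, hx⟩ := mem_fex.1 (hO y) s hs
  obtain ⟨t, ht, y', hy', h⟩ := hS x s' hs'
  have := isFun_unique hF ((ht.trans hs').trans hs) (down_meets _ _ hx _ ht) h
  exact hy (mem_iUnion.2 ⟨x, by rw [this]; exact hy'⟩)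

/-- rows in `B` from the first condition, the other rows from the second -/
noncomputable def glue (B : Set I) (p q : Cond I) : Cond I := by
  classical
  exact
  { f := fun x => if x.1 ∈ B then p.f x else q.f x
    cnt := by
      refine (p.cnt.union q.cnt).mono ?_
      rintro α ⟨n, hn⟩
      by_cases h : α ∈ B
      · simp only [if_pos h] at hn
        exact Or.inl ⟨n, hn⟩
      · simp only [if_neg h] at hn
        exact Or.inr ⟨n, hn⟩
    inf := fun α => by
      by_cases h : α ∈ B
      · simp only [if_pos h]; exact p.inf α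
      · simp only [if_neg h]; exact q.inf α }

theorem glue_in {B : Set I} (p q : Cond I) {x : I × ℕ} (h : x.1 ∈ B) :
    (glue B p q).f x = p.f x := by
  simp only [glue]; exact if_pos h

theorem glue_out {B : Set I} (p q : Cond I) {x : I × ℕ} (h : x.1 ∉ B) :
    (glue B p q).f x = q.f x := by
  simp only [glue]; exact if_neg h

/-- the row: `false` below `h`, `true` at `h`, free above -/
def pat (h j : ℕ) : Option Bool :=
  if j < h then some false else if j = h then some true else none

/-- countably many rows given by patterns -/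
noncomputable def rows (e : ℕ → I) (h : ℕ → ℕ) : Cond I where
  f x := Function.extend e (fun n => pat (h n)) (fun _ _ => none) x.1 x.2
  cnt := by
    refine (countable_range e).mono ?_
    rintro α ⟨n, hn⟩
    by_contra hα
    rw [Function.extend_apply' _ _ _ hα] at hn
    exact hn rfl
  inf α := by
    by_cases hα : ∃ n, e n = α
    · refine (Set.Ioi_infinite (h (Classical.choose hα))).mono (fun j hj => ?_)
      have hj' : h (Classical.choose hα) < j := hj
      have h1 : Function.extend e (fun n => pat (h n)) (fun _ _ => none) α =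
          pat (h (Classical.choose hα)) := by
        classical
        rw [Function.extend_def, dif_pos hα]
      simp only [mem_ofPred_eq, h1, pat]
      rw [if_neg (by omega), if_neg (by omega)]
    · simp only [Function.extend_apply' _ _ _ hα]
      simpa using infinite_univ

/-- the least place with value `true` in the row `α` is `k` -/
def gname (α : I) (k : ℕ) : Set (Cond I) :=
  {p | p.f (α, k) = some true ∧ ∀ j < k, p.f (α, j) = some false}

theorem down_gname (α : I) (k : ℕ) : Down (gname α k) :=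
  fun _ hp _ hq => ⟨some_of_le hq hp.1, fun j hj => some_of_le hq (hp.2 j hj)⟩

theorem gname_unique {α : I} {k k' : ℕ} {p : Cond I} (h : p ∈ meets (gname α k))
    (h' : p ∈ meets (gname α k')) : k = k' := by
  obtain ⟨q, hq, h1⟩ := exists_of_meets (down_gname α k) h
  obtain ⟨r, hr, h2⟩ := exists_of_meets (down_gname α k') (down_meets _ _ h' _ hq)
  have h3 := down_gname α k _ h1 _ hr
  rcases lt_trichotomy k k' with h4 | h4 | h4
  · have := h2.2 k h4
    rw [h3.1] at this
    simp at this
  · exact h4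
  · have := h3.2 k' h4
    rw [h2.1] at this
    simp at this

theorem exists_decide (p : Cond I) (α : I) (m : ℕ) (T : Finset (I × ℕ)) :
    ∃ q ≤ p, (∀ j < m, q.f (α, j) ≠ none) ∧
      ∀ j < m, p.f (α, j) = none → (α, j) ∈ T → q.f (α, j) = some true := by
  classical
  let K : Finset (I × ℕ) := ((Finset.range m).filter (fun j => p.f (α, j) = none)).image
    (fun j => (α, j))
  have hK : ∀ j, (α, j) ∈ K ↔ j < m ∧ p.f (α, j) = none := by
    intro j; simp [K]
  refine ⟨fill p K T, fill_le (fun x hx => ?_) T, fun j hj => ?_, fun j hj h1 h2 => ?_⟩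
  · obtain ⟨j, hj, rfl⟩ := Finset.mem_image.1 hx
    exact (Finset.mem_filter.1 hj).2
  · by_cases h : p.f (α, j) = none
    · rw [fill, upd_in _ _ ((hK j).2 ⟨hj, h⟩)]; simp
    · rw [fill, upd_out _ _ (fun h' => h ((hK j).1 h').2)]; exact h
  · rw [fill, upd_in _ _ ((hK j).2 ⟨hj, h1⟩)]; simp [h2]

theorem gname_total (p : Cond I) (α : I) : ∃ q ≤ p, ∃ k, q ∈ gname α k := by
  classical
  obtain ⟨m, hm⟩ := (p.inf α).nonempty
  obtain ⟨q, hq, h1, h2⟩ := exists_decide p α (m + 1) {(α, m)}
  have hex : ∃ k, q.f (α, k) = some true := ⟨m, h2 m (by omega) hm (by simp)⟩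
  refine ⟨q, hq, Nat.find hex, Nat.find_spec hex, fun j hj => ?_⟩
  have h3 : Nat.find hex ≤ m := Nat.find_min' hex (h2 m (by omega) hm (by simp))
  have h4 := Nat.find_min hex hj
  obtain ⟨b, hb⟩ := Option.ne_none_iff_exists'.1 (h1 j (by omega))
  cases b
  · exact hb
  · exact absurd hb h4

theorem dom_holds [Nonempty I] (ι : Om × ℕ → I) (hι : Function.Injective ι) (p : Cond I) :
    p ∈ DomHolds (Cond I) := by
  classical
  refine mem_fex.2 (fun q _ => ⟨q, le_rfl, fun ξ n k => gname (ι (ξ, n)) k, fun ξ => ⟨fun n => ?_,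
    fun n k k' => ?_⟩, fun f => ?_⟩)
  · refine mem_fex.2 (fun r _ => ?_)
    obtain ⟨s, hs, k, hk⟩ := gname_total r (ι (ξ, n))
    exact ⟨s, hs, k, meets_of_mem hk⟩
  · exact mem_fimp.2 (fun r _ h => ⟨r, le_rfl, gname_unique h.1 h.2⟩)
  · refine mem_fimp.2 (fun r _ hF => ?_)
    obtain ⟨s, hs, S, -, hS⟩ := sacks (fun n x => meets (f n x)) (fun _ _ => down_meets _) r
      (fun n => isFun_total hF n)
    obtain ⟨ξ, hξ⟩ := exists_notMem_om ((s.cnt.preimage_of_injOn hι.injOn).image Prod.fst)
    have he : Function.Injective (fun n => ι (ξ, n)) := fun a b h => by simpa using hι h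
    let t := glue (range fun n => ι (ξ, n)) (rows (fun n => ι (ξ, n)) (fun n => (S n).sup id)) s
    have hts : t ≤ s := by
      rintro ⟨α, j⟩ hx
      refine glue_out _ _ ?_
      rintro ⟨n, hn⟩
      exact hξ ⟨(ξ, n), ⟨j, by rw [show ι (ξ, n) = α from hn]; exact hx⟩, rfl⟩
    have htv : ∀ n j, t.f (ι (ξ, n), j) = pat ((S n).sup id) j := by
      intro n j
      rw [glue_in (x := (ι (ξ, n), j)) _ _ (mem_range_self n)]
      simp only [rows]
      rw [he.extend_apply]
    have htg : ∀ n, t ∈ gname (ι (ξ, n)) ((S n).sup id) := fun n =>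
      ⟨by rw [htv]; simp [pat], fun j hj => by rw [htv]; simp only [pat]; rw [if_pos hj]⟩
    refine ⟨t, hts.trans hs, mem_fex.2 (fun u hu => ⟨u, le_rfl, ξ, mem_fex.2 (fun v hv =>
      ⟨v, le_rfl, 0, fun n a b => mem_fimp.2 (fun w hw h => ⟨w, le_rfl, ?_⟩)⟩)⟩)⟩
    have hwt : w ≤ t := (hw.trans hv).trans hu
    have h1 : b = (S n).sup id :=
      gname_unique h.2.2 (meets_of_mem (down_gname _ _ _ (htg n) _ hwt))
    obtain ⟨w', hw', x, hx, h2⟩ := hS n w (hwt.trans hts)
    have h3 : a = x := isFun_unique hF (hw'.trans ((hwt.trans hts).trans hs))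
      (down_meets _ _ h.2.1 _ hw') h2
    show a ≤ b
    rw [h1, h3]
    exact Finset.le_sup (f := id) hx

end Pool.Agent.H422Z.Sil
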