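import Pool.Agent.H422Z.Sil.Dom
import Pool.Agent.H422Z.Sil.Comb

/-!
The product of more than continuum many Silver forcings forces that there are no P-points.
-/

set_option autoImplicit false

namespace Pool.Agent.H422Z.Sil

open Set Cardinal

section Ultra
variable {P : Type} [Preorder P] {U : (ℕ → Set P) → Set P} {q0 : P}

theorem down_mem (U : (ℕ → Set P) → Set P) (y : ℕ → Set P) : Down (Mem U y) := down_fex _

theorem down_isUltra (U : (ℕ → Set P) → Set P) : Down (IsUltra U) :=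
  down_fand (down_fall fun _ => down_fimp _ _) (down_fand
    (down_fall fun _ => down_fall fun _ => down_fall fun _ => down_fimp _ _)
    (down_fall fun _ => down_fall fun _ => down_fimp _ _))

theorem ultra1 (h : q0 ∈ IsUltra U) {r : P} (hr : r ≤ q0) {y : ℕ → Set P} (hy : r ∈ Mem U y)
    (m : ℕ) : ∃ s ≤ r, ∃ n, m ≤ n ∧ s ∈ meets (y n) := by
  obtain ⟨s, hs, h1⟩ := mem_fimp.1 (h.1 y) r hr hy
  obtain ⟨t, ht, n, h2⟩ := mem_fex.1 (h1 m) s le_rfl
  exact ⟨t, ht.trans hs, n, h2.1, h2.2⟩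

theorem ultra2 (h : q0 ∈ IsUltra U) {r : P} (hr : r ≤ q0) {x y z : ℕ → Set P}
    (hx : r ∈ Mem U x) (hy : r ∈ Mem U y)
    (hz : ∀ n, ∀ s ≤ r, s ∈ meets (x n) → s ∈ meets (y n) → ∃ t ≤ s, t ∈ z n) :
    ∃ s ≤ r, s ∈ Mem U z := by
  refine mem_fimp.1 (h.2.1 x y z) r hr ⟨hx, hy, fun n => mem_fimp.2 (fun s hs h1 => ?_)⟩
  obtain ⟨t, ht, h2⟩ := hz n s hs h1.1 h1.2
  exact ⟨t, ht, meets_of_mem h2⟩

theorem ultra3 (h : q0 ∈ IsUltra U) {r : P} (hr : r ≤ q0) {x y : ℕ → Set P}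
    (hz : ∀ n, ∀ s ≤ r, ∃ t ≤ s, t ∈ x n ∨ t ∈ y n) :
    ∃ s ≤ r, s ∈ Mem U x ∨ s ∈ Mem U y := by
  obtain ⟨s, hs, h1⟩ := mem_fimp.1 (h.2.2 x y) r hr (fun n => mem_fimp.2 (fun s hs h1 => by
    obtain ⟨t, ht, h2 | h2⟩ := hz n s hs
    · exact absurd (meets_of_mem h2) (h1 t ht)
    · exact ⟨t, ht, meets_of_mem h2⟩))
  by_cases h2 : s ∈ fnot (Mem U x)
  · obtain ⟨t, ht, h3⟩ := mem_fimp.1 h1 s le_rfl h2
    exact ⟨t, ht.trans hs, Or.inr h3⟩
  · simp only [fnot, mem_ofPred_eq, not_forall, not_not] at h2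
    obtain ⟨t, ht, h3⟩ := h2
    exact ⟨t, ht.trans hs, Or.inl h3⟩

theorem ultra0 (h : q0 ∈ IsUltra U) {r : P} (hr : r ≤ q0) {x y : ℕ → Set P}
    (hx : r ∈ Mem U x) (hy : r ∈ Mem U y)
    (hz : ∀ n, ∀ s ≤ r, s ∈ meets (x n) → s ∈ meets (y n) → False) : False := by
  obtain ⟨s, hs, h1⟩ := ultra2 (z := fun _ => ∅) h hr hx hy
    (fun n s hs h1 h2 => (hz n s hs h1 h2).elim)
  obtain ⟨t, -, n, -, h2⟩ := ultra1 h (hs.trans hr) h1 0
  obtain ⟨_, -, _, h3, -⟩ := h2 t le_rfl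
  exact h3

/-- the canonical name of a ground model set -/
def chk (P : Type) (A : Set ℕ) : ℕ → Set P := fun n => {_p | n ∈ A}

theorem mem_of_meets_chk {A : Set ℕ} {n : ℕ} {p : P} (h : p ∈ meets (chk P A n)) : n ∈ A := by
  obtain ⟨_, -, _, h3, -⟩ := h p le_rfl
  exact h3

end Ultra

variable {I : Type}

theorem cond_ext {p q : Cond I} (h : p.f = q.f) : p = q := by
  cases p; cases q; simpa using h

theorem dec [Nonempty I] (hI : 𝔠 < #I) (q0 : Cond I) (D : Set ℕ → Set (Cond I))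
    (hD : ∀ A, Down (D A)) (hd : ∀ A, ∀ r ≤ q0, ∃ s ≤ r, s ∈ D A) :
    ∃ α : I, ∀ A, ∀ r ≤ q0, ∃ s ≤ r, (∀ n, s.f (α, n) = r.f (α, n)) ∧ s ∈ D A := by
  classical
  choose en hen using fun q : Cond I => exists_enum q
  choose! g hg1 hg2 using hd
  let J := ((ℕ → ℕ → Option Bool) × Set ℕ × ℕ) ⊕ ℕ
  have hJ : #J ≤ 𝔠 := by
    have h1 : #(ℕ → ℕ → Option Bool) ≤ 𝔠 := by
      rw [Cardinal.mk_arrow, Cardinal.mk_arrow]
      simp only [Cardinal.lift_id, Cardinal.mk_nat, ← Cardinal.power_mul, aleph0_mul_aleph0]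
      calc #(Option Bool) ^ ℵ₀ ≤ ℵ₀ ^ ℵ₀ :=
            Cardinal.power_le_power_right Cardinal.mk_le_aleph0
        _ = 𝔠 := aleph0_power_aleph0
    simp only [J, Cardinal.mk_sum, Cardinal.mk_prod, Cardinal.lift_id, Cardinal.mk_set,
      Cardinal.mk_nat, two_power_aleph0, continuum_mul_aleph0]
    refine Cardinal.add_le_of_le aleph0_le_continuum ?_ aleph0_le_continuum
    exact (mul_le_mul' h1 le_rfl).trans (by rw [continuum_mul_self])
  let Q : (ℕ → ℕ → Option Bool) → (ℕ → I) → Cond I → Prop := fun ρ e s =>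
    (∀ α n, s.f (α, n) ≠ none → ∃ i, e i = α) ∧ ∀ i n, s.f (e i, n) = ρ i n
  have hQ : ∀ ρ e s s', Q ρ e s → Q ρ e s' → s = s' := by
    intro ρ e s s' h h'
    refine cond_ext (funext fun ⟨α, n⟩ => ?_)
    by_cases hα : ∃ i, e i = α
    · obtain ⟨i, rfl⟩ := hα
      rw [h.2, h'.2]
    · have h1 : s.f (α, n) = none := by_contra fun h1 => hα (h.1 α n h1)
      have h2 : s'.f (α, n) = none := by_contra fun h1 => hα (h'.1 α n h1)
      rw [h1, h2]
  let F : J → (ℕ → I) → I := fun j e => Sum.elim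
    (fun x : (ℕ → ℕ → Option Bool) × Set ℕ × ℕ =>
      if h : ∃ s, Q x.1 e s then en (g x.2.1 h.choose) x.2.2 else e 0) (en q0) j
  obtain ⟨B, ⟨α, hα⟩, hi0, hB⟩ := closed_small hJ hI (Classical.arbitrary I) F
  refine ⟨α, fun A r hr => ?_⟩
  have hq0 : ∀ β n, q0.f (β, n) ≠ none → β ∈ B := by
    intro β n h
    obtain ⟨i, rfl⟩ := hen q0 β n h
    exact hB (Sum.inr i) (fun _ => Classical.arbitrary I) (fun _ => hi0)
  let s := glue B r (top I)
  have hs0 : s ≤ q0 := by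
    rintro ⟨β, n⟩ h
    rw [glue_in (x := (β, n)) _ _ (hq0 β n h)]
    exact hr _ h
  let e : ℕ → I := fun i => if en s i ∈ B then en s i else Classical.arbitrary I
  have he : ∀ i, e i ∈ B := by
    intro i
    simp only [e]
    split_ifs with h
    · exact h
    · exact hi0
  have hQs : Q (fun i n => s.f (e i, n)) e s := by
    refine ⟨fun β n h => ?_, fun _ _ => rfl⟩
    obtain ⟨i, rfl⟩ := hen s β n h
    refine ⟨i, if_pos ?_⟩
    by_contra h'
    exact h (glue_out (x := (en s i, n)) _ _ h')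
  have hsupp : ∀ β n, (g A s).f (β, n) ≠ none → β ∈ B := by
    intro β n h
    obtain ⟨i, rfl⟩ := hen _ β n h
    have h1 := hB (Sum.inl (fun i n => s.f (e i, n), A, i)) e he
    have h2 : ∃ s', Q (fun i n => s.f (e i, n)) e s' := ⟨s, hQs⟩
    simp only [F, Sum.elim_inl] at h1
    rw [dif_pos h2, hQ _ _ _ _ h2.choose_spec hQs] at h1
    exact h1
  refine ⟨glue B (g A s) r, ?_, fun n => glue_out (x := (α, n)) _ _ hα,
    hD A _ (hg2 A s hs0) _ ?_⟩
  · rintro ⟨β, n⟩ h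
    by_cases hβ : β ∈ B
    · have h1 : s.f (β, n) = r.f (β, n) := glue_in (x := (β, n)) _ _ hβ
      rw [glue_in (x := (β, n)) _ _ hβ, hg1 A s hs0 _ (by rw [h1]; exact h), h1]
    · exact glue_out (x := (β, n)) _ _ hβ
  · rintro ⟨β, n⟩ h
    exact glue_in (x := (β, n)) _ _ (hsupp β n h)

/-- the number of places below `j` with value `true` in the row `α` -/
noncomputable def cn (α : I) (p : Cond I) (j : ℕ) : ℕ := ct (fun i => p.f (α, i) = some true) j

/-- the set of the `j` such that the size of the generic row below `j` is in `S` modulo `k` -/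
def YY (α : I) (k : ℕ) (S : Set ℕ) (j : ℕ) : Set (Cond I) :=
  {p | (∀ i < j, p.f (α, i) ≠ none) ∧ cn α p j % k ∈ S}

theorem cn_eq {α : I} {p q : Cond I} (h : q ≤ p) {j : ℕ} (hj : ∀ i < j, p.f (α, i) ≠ none) :
    cn α q j = cn α p j :=
  ct_congr (fun i hi => by rw [h _ (hj i hi)])

theorem down_YY (α : I) (k : ℕ) (S : Set ℕ) (j : ℕ) : Down (YY α k S j) := by
  intro p hp q hq
  refine ⟨fun i hi => ?_, ?_⟩
  · rw [hq _ (hp.1 i hi)]; exact hp.1 i hi
  · rw [cn_eq hq hp.1]; exact hp.2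

variable {U : (ℕ → Set (Cond I)) → Set (Cond I)} {q0 : Cond I}

theorem YY_inter (h : q0 ∈ IsUltra U) {α : I} {k : ℕ} {S S' S'' : Set ℕ}
    (hS : ∀ i, i ∈ S → i ∈ S' → i ∈ S'') {r : Cond I} (hr : r ≤ q0)
    (h1 : r ∈ Mem U (YY α k S)) (h2 : r ∈ Mem U (YY α k S')) :
    ∃ s ≤ r, s ∈ Mem U (YY α k S'') := by
  refine ultra2 h hr h1 h2 (fun n s _ h3 h4 => ?_)
  obtain ⟨t, ht, h5⟩ := exists_of_meets (down_YY _ _ _ _) h3
  obtain ⟨u, hu, h6⟩ := exists_of_meets (down_YY _ _ _ _) (down_meets _ _ h4 _ ht)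
  exact ⟨u, hu.trans ht, h6.1, hS _ (down_YY _ _ _ _ _ h5 _ hu).2 h6.2⟩

theorem YY_union (h : q0 ∈ IsUltra U) {α : I} {k : ℕ} (hk : 1 ≤ k) {S S' : Set ℕ}
    (hS : ∀ i < k, i ∈ S ∨ i ∈ S') {r : Cond I} (hr : r ≤ q0) :
    ∃ s ≤ r, s ∈ Mem U (YY α k S) ∨ s ∈ Mem U (YY α k S') := by
  refine ultra3 h hr (fun n s _ => ?_)
  obtain ⟨t, ht, h1, -⟩ := exists_decide s α n ∅
  rcases hS (cn α t n % k) (Nat.mod_lt _ hk) with h2 | h2
  · exact ⟨t, ht, Or.inl ⟨h1, h2⟩⟩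
  · exact ⟨t, ht, Or.inr ⟨h1, h2⟩⟩

theorem YY_single (h : q0 ∈ IsUltra U) (α : I) {k : ℕ} (hk : 1 ≤ k) {r : Cond I} (hr : r ≤ q0) :
    ∃ s ≤ r, ∃ i, s ∈ Mem U (YY α k {i}) := by
  have key : ∀ m, ∀ r ≤ q0, r ∈ Mem U (YY α k {i | i < m}) →
      ∃ s ≤ r, ∃ i, s ∈ Mem U (YY α k {i}) := by
    intro m
    induction m with
    | zero =>
      intro r hr h1
      obtain ⟨s, -, n, -, h2⟩ := ultra1 h hr h1 0
      obtain ⟨t, -, h3⟩ := exists_of_meets (down_YY _ _ _ _) h2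
      exact absurd h3.2 (by simp)
    | succ m ih =>
      intro r hr h1
      obtain ⟨s, hs, h2 | h2⟩ := YY_union h (α := α) hk (S := {m}) (S' := {m}ᶜ)
        (fun i _ => em _) hr
      · exact ⟨s, hs, m, h2⟩
      · obtain ⟨t, ht, h3⟩ := YY_inter h (S'' := {i | i < m}) (fun i h4 h5 => by
          simp only [mem_ofPred_eq, mem_compl_iff, mem_singleton_iff] at h4 h5 ⊢
          omega) (hs.trans hr) (down_mem _ _ _ h1 _ hs) h2
        obtain ⟨u, hu, h4⟩ := ih t ((ht.trans hs).trans hr) h3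
        exact ⟨u, (hu.trans ht).trans hs, h4⟩
  obtain ⟨s, hs, h1⟩ := YY_union h (α := α) hk (S := {i | i < k}) (S' := {i | i < k})
    (fun i hi => Or.inl hi) hr
  obtain ⟨t, ht, h2⟩ := key k s (hs.trans hr) (h1.elim id id)
  exact ⟨t, ht.trans hs, h2⟩

open Classical in
/-- fill the free places of the row `α` outside `W`, with `true` exactly on `O` -/
noncomputable def ext (r : Cond I) (α : I) (W O : ℕ → Prop)
    (hW : {i | r.f (α, i) = none ∧ W i}.Infinite) : Cond I where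
  f x := if x.1 = α ∧ r.f x = none ∧ ¬ W x.2 then some (decide (O x.2)) else r.f x
  cnt := by
    refine (r.cnt.insert α).mono ?_
    rintro β ⟨n, hn⟩
    by_cases h : β = α
    · exact Or.inl h
    · rw [if_neg (fun h' => h h'.1)] at hn
      exact Or.inr ⟨n, hn⟩
  inf β := by
    by_cases h : β = α
    · subst h
      refine hW.mono (fun i hi => ?_)
      simp only [mem_ofPred_eq]
      rw [if_neg (fun h' => h'.2.2 hi.2)]
      exact hi.1
    · refine (r.inf β).mono (fun i hi => ?_)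
      simp only [mem_ofPred_eq]
      rw [if_neg (fun h' => h h'.1)]
      exact hi

theorem ext_le (r : Cond I) (α : I) (W O : ℕ → Prop)
    (hW : {i | r.f (α, i) = none ∧ W i}.Infinite) : ext r α W O hW ≤ r := by
  intro x hx
  simp only [ext]
  rw [if_neg (fun h => hx h.2.1)]

theorem cn_ext {r : Cond I} {α : I} {W O : ℕ → Prop}
    {hW : {i | r.f (α, i) = none ∧ W i}.Infinite}
    (hO : ∀ i, O i → r.f (α, i) = none ∧ ¬ W i) {t : Cond I} (ht : t ≤ ext r α W O hW) (j : ℕ) :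
    ∃ w ≤ ct W j, cn α t j = cn α r j + ct O j + w := by
  induction j with
  | zero => exact ⟨0, Nat.zero_le _, by simp only [cn, ct_zero]⟩
  | succ j ih =>
    obtain ⟨w, hw, ih⟩ := ih
    have hmono : ct W j ≤ ct W (j + 1) := ct_mono W (Nat.le_succ j)
    simp only [cn] at ih ⊢
    by_cases h1 : r.f (α, j) = none
    · have h2 : ¬ r.f (α, j) = some true := by rw [h1]; simp
      rw [ct_neg (p := fun i => r.f (α, i) = some true) h2]
      by_cases h3 : W j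
      · rw [ct_neg (p := O) (fun h => (hO j h).2 h3), ct_pos h3]
        by_cases h4 : t.f (α, j) = some true
        · rw [ct_pos (p := fun i => t.f (α, i) = some true) h4]
          exact ⟨w + 1, by omega, by omega⟩
        · rw [ct_neg (p := fun i => t.f (α, i) = some true) h4]
          exact ⟨w, by omega, by omega⟩
      · by_cases h4 : O j
        · have h5 : t.f (α, j) = some true := some_of_le ht (by simp [ext, h1, h3, h4])
          rw [ct_pos h4, ct_pos (p := fun i => t.f (α, i) = some true) h5]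
          exact ⟨w, by omega, by omega⟩
        · have h5 : t.f (α, j) = some false := some_of_le ht (by simp [ext, h1, h3, h4])
          rw [ct_neg h4, ct_neg (p := fun i => t.f (α, i) = some true) (by rw [h5]; simp)]
          exact ⟨w, by omega, by omega⟩
    · have h2 : t.f (α, j) = r.f (α, j) := (ht.trans (ext_le _ _ _ _ _)) _ h1
      rw [ct_neg (p := O) (fun h => h1 (hO j h).1)]
      by_cases h4 : r.f (α, j) = some true
      · rw [ct_pos (p := fun i => r.f (α, i) = some true) h4,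
          ct_pos (p := fun i => t.f (α, i) = some true) (by rw [h2]; exact h4)]
        exact ⟨w, by omega, by omega⟩
      · rw [ct_neg (p := fun i => r.f (α, i) = some true) h4,
          ct_neg (p := fun i => t.f (α, i) = some true) (by rw [h2]; exact h4)]
        exact ⟨w, by omega, by omega⟩

theorem no_ppoints [Nonempty I] (hI : 𝔠 < #I) (p : Cond I) : p ∈ NoPPoints (Cond I) := by
  intro U
  refine mem_fimp.2 (fun q _ hq => ⟨q, le_rfl, fun q0 hq0 hP => ?_⟩)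
  have h : q0 ∈ IsUltra U := down_isUltra U _ hq _ hq0
  obtain ⟨α, hα⟩ := dec hI q0 (fun A => {r | r ∈ Mem U (chk _ A) ∨ r ∈ Mem U (chk _ Aᶜ)})
    (fun A r hr s hs => hr.imp (fun h => down_mem _ _ _ h _ hs) (fun h => down_mem _ _ _ h _ hs))
    (fun A r hr => ultra3 h hr (fun n s _ => ⟨s, le_rfl, em _⟩))
  let k : ℕ → ℕ := fun n => (2 ^ n * (n + 1 + 1)) ^ 2 + 1
  have hk : ∀ n, 1 ≤ k n := fun n => Nat.le_add_left _ _
  obtain ⟨q1, hq1, S, hS1, hS2⟩ := sacks (fun n i => Mem U (YY α (k n) {i}))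
    (fun _ _ => down_mem _ _) q0 (fun n r hr => YY_single h α (hk n) hr)
  have h1 : ∀ n, q1 ∈ Mem U (YY α (k n) (S n)) := by
    intro n
    refine fex_of_dense (fun r hr => ?_)
    obtain ⟨s, hs, i, hi, h2⟩ := hS2 n r hr
    obtain ⟨t, ht, h3⟩ := YY_inter h (S'' := (S n : Set ℕ)) (fun j h4 _ => by
      rw [mem_singleton_iff.1 h4]; exact hi) ((hs.trans hr).trans hq1) h2 h2
    exact ⟨t, ht.trans hs, h3⟩
  obtain ⟨q2, hq2, h2⟩ := mem_fimp.1 (hP (fun n => YY α (k n) (S n))) q1 hq1 h1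
  obtain ⟨q3, hq3, B, hB, h3⟩ := mem_fex.1 h2 q2 le_rfl
  obtain ⟨q4, hq4, T, -, hT⟩ := sacks (fun n m => fall fun j =>
      fimp (fand (fground (m ≤ j)) (meets (B j))) (meets (YY α (k n) (S n) j)))
    (fun _ _ => down_fall fun _ => down_fimp _ _) q3 (fun n => mem_fex.1 (h3 n))
  have h40 : q4 ≤ q0 := ((hq4.trans hq3).trans hq2).trans hq1
  let f : ℕ → ℕ := fun n => (T n).sup id
  have hf : ∀ n j, f n ≤ j → ∀ r ≤ q4, r ∈ meets (B j) → ∃ s ≤ r, s ∈ YY α (k n) (S n) j := by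
    intro n j hj r hr h4
    obtain ⟨s, hs, m, hm, h5⟩ := hT n r hr
    obtain ⟨t, ht, h6⟩ := mem_fimp.1 (h5 j) s le_rfl
      ⟨(Finset.le_sup (f := id) hm).trans hj, down_meets _ _ h4 _ hs⟩
    obtain ⟨u, hu, h7⟩ := exists_of_meets (down_YY _ _ _ _) h6
    exact ⟨u, (hu.trans ht).trans hs, h7⟩
  choose σ hσ using fun n => shift (S n) (n + 1) (k n)
    (Nat.lt_succ_of_le (Nat.pow_le_pow_left (Nat.mul_le_mul_right _ (hS1 n)) 2))
  obtain ⟨W, O, m0, hW, -, hO, hcov⟩ := comb (fun i => q4.f (α, i) = none) (q4.inf α) f k σ hk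
  let A : (ℕ → Prop) → Set ℕ := fun O =>
    {j | ∃ n, f n ≤ j ∧ ∀ w ≤ ct W j, (cn α q4 j + ct O j + w) % k n ∉ S n}
  have key : ∀ O : ℕ → Prop, (∀ i, O i → q4.f (α, i) = none ∧ ¬ W i) →
      ∀ r ≤ q4, (∀ n, r.f (α, n) = q4.f (α, n)) →
        ∃ s ≤ r, (∀ n, s.f (α, n) = q4.f (α, n)) ∧ s ∈ Mem U (chk _ (A O)ᶜ) := by
    intro O hO r hr hrow
    obtain ⟨s, hs, hsrow, h4 | h4⟩ := hα (A O) r (hr.trans h40)
    · exfalso
      have hrow' : ∀ n, s.f (α, n) = q4.f (α, n) := fun n => (hsrow n).trans (hrow n)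
      have hW' : {i | s.f (α, i) = none ∧ W i}.Infinite := by simpa only [hrow'] using hW
      have hle := ext_le s α W O hW'
      have hle4 : ext s α W O hW' ≤ q4 := (hle.trans hs).trans hr
      refine ultra0 h (hle4.trans h40) (down_mem _ _ _ hB _ (hle4.trans hq4))
        (down_mem _ _ _ h4 _ hle) (fun j t ht h5 h6 => ?_)
      obtain ⟨n, h7, h8⟩ := mem_of_meets_chk h6
      obtain ⟨u, hu, h9⟩ := hf n j h7 t (ht.trans hle4) h5
      obtain ⟨w, hw, h10⟩ := cn_ext (fun i hi => by rw [hrow']; exact hO i hi) (hu.trans ht) j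
      have h11 : cn α s j = cn α q4 j := ct_congr (fun i _ => by rw [hrow'])
      refine h8 w hw ?_
      rw [← h11, ← h10]
      exact h9.2
    · exact ⟨s, hs, fun n => (hsrow n).trans (hrow n), h4⟩
  obtain ⟨r1, hr1, hw1, h5⟩ := key (fun _ => False) (fun _ h => h.elim) q4 le_rfl (fun _ => rfl)
  obtain ⟨r2, hr2, hw2, h6⟩ := key (O false) (hO false) r1 hr1 hw1
  obtain ⟨r3, hr3, -, h7⟩ := key (O true) (hO true) r2 (hr2.trans hr1) hw2
  have h30 : r3 ≤ q0 := ((hr3.trans hr2).trans hr1).trans h40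
  obtain ⟨r4, hr4, h8⟩ := ultra2 (z := chk _ ((A (fun _ => False))ᶜ ∩ (A (O false))ᶜ)) h h30
    (down_mem _ _ _ h5 _ (hr3.trans hr2)) (down_mem _ _ _ h6 _ hr3)
    (fun n s _ h8 h9 => ⟨s, le_rfl, mem_of_meets_chk h8, mem_of_meets_chk h9⟩)
  obtain ⟨r5, hr5, h9⟩ := ultra2
    (z := chk _ (((A (fun _ => False))ᶜ ∩ (A (O false))ᶜ) ∩ (A (O true))ᶜ)) h (hr4.trans h30)
    h8 (down_mem _ _ _ h7 _ hr4)
    (fun n s _ h8 h9 => ⟨s, le_rfl, mem_of_meets_chk h8, mem_of_meets_chk h9⟩)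
  obtain ⟨_, -, j, hj, h10⟩ := ultra1 h ((hr5.trans hr4).trans h30) h9 m0
  obtain ⟨⟨h11, h12⟩, h13⟩ := mem_of_meets_chk h10
  obtain ⟨n, ε, h14, h15, h16⟩ := hcov j hj
  have h17 : j ∉ A (O ε) := by cases ε <;> assumption
  have h18 : ∃ w ≤ ct W j, (cn α q4 j + w) % k n ∈ S n := by
    by_contra h18
    push Not at h18
    refine h11 ⟨n, h14, fun w hw => ?_⟩
    rw [ct_eq_of_neg (Nat.zero_le j) (fun _ _ _ h => h), ct_zero, add_zero]
    exact h18 w hw
  obtain ⟨w, hw, h19⟩ := h18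
  refine h17 ⟨n, h14, fun w' hw' => ?_⟩
  have h20 : (cn α q4 j + ct (O ε) j + w') % k n = (cn α q4 j + σ n + w') % k n :=
    (h16.add_left _).add_right _
  rw [h20]
  exact hσ n _ w (hw.trans h15) w' (hw'.trans h15) h19

/-- the index set -/
abbrev Idx : Type := (Om × ℕ) ⊕ Set (Set ℕ)

theorem forced : ∃ (P : Type) (_ : Preorder P), Nonempty P ∧
    ∀ p : P, p ∈ OmegaOnePreserved P ∧ p ∈ DomHolds P ∧ p ∈ NoPPoints P := by
  haveI : Nonempty Idx := ⟨Sum.inr ∅⟩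
  refine ⟨Cond Idx, inferInstance, ⟨top _⟩, fun p => ⟨omega_preserved p,
    dom_holds Sum.inl Sum.inl_injective p, no_ppoints ?_ p⟩⟩
  refine lt_of_lt_of_le ?_ (Cardinal.mk_le_of_injective (f := (Sum.inr : Set (Set ℕ) → Idx))
    Sum.inr_injective)
  rw [Cardinal.mk_set, Cardinal.mk_set, Cardinal.mk_nat, two_power_aleph0]
  exact Cardinal.cantor _

end Pool.Agent.H422Z.Sil
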